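import Pool.Agent.Helper23.MC.Goals1
import Pool.Agent.Helper5.GM.SU
import Pool.Agent.Helper31.RR.CB
import Pool.Agent.Helper24.PP.MA

/-!
# MP_69be96_nt, project MC, packet SUV: a bound for the weights at a single integer
-/

set_option autoImplicit false

open Finset Filter Topology

open scoped Classical

namespace Pool.Agent.Helper56.MC

open Pool.Agent.Helper23.MC
open Pool.Agent.Helper88.PP (pr Rg om Sf SS uu vv ee LA VV QQ cost)
open Pool.Agent.Helper88.RR (gg ab TB WB nz wb DB Db VM)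
open Pool.Agent.Helper88.CG (qE mE)
open Pool.Agent.Helper85.RR (ab_nonneg card_TB mem_TB)
open Pool.Agent.Helper3.PP (mem_SS mem_LA)
open Pool.Agent.Helper5.GM (card_large cp abs_vv_le cp_mem cp_dvd sum_label sum_labels)

/-- the sum over the labels at one point of `H` -/
theorem sum_labelS {D : ℝ} {M y z m' k : ℕ}
    (hC : ∀ d ∈ SS z (z ^ M),
      (d : ℝ) * ∑ r ∈ (SS z (z ^ M)).filter (fun r => d ∣ r), 1 / (Nat.totient r : ℝ) ≤ D)
    (hD0 : 0 ≤ D) (hm' : m' ≠ 0) (hk : (m'.primeFactors.filter (fun p => z < p)).card ≤ k) :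
    ∑ r ∈ SS z (z ^ M), 1 / (Nat.totient r : ℝ) * |vv y z r m'| ≤ D * 2 ^ k := by
  set U := (m'.primeFactors.filter (fun p => z < p)).powerset with hU
  have hnn : ∀ r : ℕ, 0 ≤ 1 / (Nat.totient r : ℝ) := fun r => by positivity
  have h1 : ∀ r ∈ SS z (z ^ M), 1 / (Nat.totient r : ℝ) * |vv y z r m'| ≤
      ∑ S ∈ U, if (∏ p ∈ S, p) ∣ r then
        ((∏ p ∈ S, p : ℕ) : ℝ) * (1 / (Nat.totient r : ℝ)) else 0 := by
    intro r hr
    have hr1 := mem_SS.1 hr
    have hr0 : r ≠ 0 := by omega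
    have h2 : 1 / (Nat.totient r : ℝ) * |vv y z r m'| ≤
        ((∏ p ∈ cp r m', p : ℕ) : ℝ) * (1 / (Nat.totient r : ℝ)) := by
      rw [mul_comm]
      exact mul_le_mul_of_nonneg_right (abs_vv_le hr0) (hnn r)
    refine h2.trans ?_
    have h3 := Finset.single_le_sum (s := U)
      (f := fun S => if (∏ p ∈ S, p) ∣ r then
        ((∏ p ∈ S, p : ℕ) : ℝ) * (1 / (Nat.totient r : ℝ)) else 0)
      (fun S _ => by
        split_ifs
        · exact mul_nonneg (Nat.cast_nonneg _) (hnn r)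
        · exact le_rfl) (cp_mem hm' hr1.2)
    simp only [if_pos (cp_dvd r m')] at h3
    exact h3
  refine (Finset.sum_le_sum h1).trans ?_
  rw [Finset.sum_comm]
  have h4 : ∀ S ∈ U, ∑ r ∈ SS z (z ^ M),
      (if (∏ p ∈ S, p) ∣ r then ((∏ p ∈ S, p : ℕ) : ℝ) * (1 / (Nat.totient r : ℝ)) else 0)
        ≤ D := by
    intro S _
    rw [← Finset.sum_filter, ← Finset.mul_sum]
    by_cases hS : (∏ p ∈ S, p) ∈ SS z (z ^ M)
    · exact hC _ hS
    · have h5 : (SS z (z ^ M)).filter (fun r => (∏ p ∈ S, p) ∣ r) = ∅ := by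
        rw [Finset.filter_eq_empty_iff]
        intro r hr hd
        apply hS
        have hr1 := mem_SS.1 hr
        have hle := Nat.le_of_dvd (by omega) hd
        have hpos : 1 ≤ ∏ p ∈ S, p := Nat.pos_of_dvd_of_pos hd (by omega)
        refine mem_SS.2 ⟨⟨hpos, by omega⟩, ?_, ?_⟩
        · exact Squarefree.squarefree_of_dvd hd hr1.2.1
        · intro p hp hpd
          exact hr1.2.2 p hp (hpd.trans hd)
      rw [h5, Finset.sum_empty, mul_zero]
      exact hD0
  calc ∑ S ∈ U, ∑ r ∈ SS z (z ^ M),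
      (if (∏ p ∈ S, p) ∣ r then ((∏ p ∈ S, p : ℕ) : ℝ) * (1 / (Nat.totient r : ℝ)) else 0)
      ≤ ∑ S ∈ U, D := Finset.sum_le_sum h4
    _ = U.card * D := by rw [Finset.sum_const, nsmul_eq_mul]
    _ ≤ 2 ^ k * D := by
        refine mul_le_mul_of_nonneg_right ?_ hD0
        rw [hU, Finset.card_powerset]
        push_cast
        exact pow_le_pow_right₀ (by norm_num) hk
    _ = D * 2 ^ k := mul_comm _ _

/-- the weight on the points of `H` -/
theorem abs_VH_le {C D : ℝ} {E y z K0 n : ℕ} {H : Finset ℕ} {T : Finset (H → ℕ)}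
    {κ : (H → ℕ) → ℝ} (hC : 0 ≤ C) (hD : 1 ≤ D) (hH : H.card ≤ K0) (hAd : Ad C E z H T κ)
    (hS : ∀ i : H, ∑ s ∈ SS z (z ^ (E / 32)),
      1 / ((E : ℝ) * (Nat.totient s : ℝ)) * |vv y z s (n + (i : ℕ))| ≤ D) :
    |VH y z H T κ n| ≤ C * D ^ K0 := by
  obtain ⟨h1, -, h3⟩ := hAd
  have hT : T ⊆ Fintype.piFinset (fun _ : H => SS z (z ^ (E / 32))) := by
    intro s hs
    rw [Fintype.mem_piFinset]
    exact h1 s hs
  have hnn : ∀ (i : H) (s : ℕ),
      0 ≤ 1 / ((E : ℝ) * (Nat.totient s : ℝ)) * |vv y z s (n + (i : ℕ))| :=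
    fun i s => mul_nonneg (by positivity) (abs_nonneg _)
  unfold VH
  calc |∑ s ∈ T, κ s * ∏ i : H, vv y z (s i) (n + (i : ℕ))|
      ≤ ∑ s ∈ T, |κ s * ∏ i : H, vv y z (s i) (n + (i : ℕ))| := Finset.abs_sum_le_sum_abs _ _
    _ ≤ ∑ s ∈ T, C * ∏ i : H, (1 / ((E : ℝ) * (Nat.totient (s i) : ℝ)) *
          |vv y z (s i) (n + (i : ℕ))|) := by
        refine Finset.sum_le_sum fun s hs => ?_
        rw [abs_mul, Finset.abs_prod, Finset.prod_mul_distrib, ← mul_assoc]
        exact mul_le_mul_of_nonneg_right (h3 s hs) (Finset.prod_nonneg fun _ _ => abs_nonneg _)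
    _ = C * ∑ s ∈ T, ∏ i : H, (1 / ((E : ℝ) * (Nat.totient (s i) : ℝ)) *
          |vv y z (s i) (n + (i : ℕ))|) := (Finset.mul_sum _ _ _).symm
    _ ≤ C * ∑ s ∈ Fintype.piFinset (fun _ : H => SS z (z ^ (E / 32))),
          ∏ i : H, (1 / ((E : ℝ) * (Nat.totient (s i) : ℝ)) *
          |vv y z (s i) (n + (i : ℕ))|) := by
        refine mul_le_mul_of_nonneg_left ?_ hC
        exact Finset.sum_le_sum_of_subset_of_nonneg hT
          fun s _ _ => Finset.prod_nonneg fun i _ => hnn i (s i)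
    _ = C * ∏ i : H, ∑ s ∈ SS z (z ^ (E / 32)),
          (1 / ((E : ℝ) * (Nat.totient s : ℝ)) * |vv y z s (n + (i : ℕ))|) := by
        congr 1
        exact (Finset.prod_univ_sum (fun _ : H => SS z (z ^ (E / 32)))
          (fun (i : H) (s : ℕ) =>
            1 / ((E : ℝ) * (Nat.totient s : ℝ)) * |vv y z s (n + (i : ℕ))|)).symm
    _ ≤ C * ∏ _i : H, D := by
        refine mul_le_mul_of_nonneg_left ?_ hC
        exact Finset.prod_le_prod (fun i _ => Finset.sum_nonneg fun s _ => hnn i s)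
          fun i _ => hS i
    _ = C * D ^ H.card := by
        rw [Finset.prod_const, Finset.card_univ, Fintype.card_coe]
    _ ≤ C * D ^ K0 := mul_le_mul_of_nonneg_left (pow_le_pow_right₀ hD hH) hC

theorem two_pow_le (E : ℕ) : (2 : ℝ) ^ E ≤ Real.exp E := by
  have h3 : (2 : ℝ) ≤ Real.exp 1 := by
    have := Real.add_one_le_exp (1 : ℝ)
    linarith
  calc (2 : ℝ) ^ E ≤ Real.exp 1 ^ E := pow_le_pow_left₀ (by norm_num) h3 E
    _ = Real.exp E := by rw [← Real.exp_nat_mul, mul_one]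

/-- `y ≤ exp E` -/
theorem y_le {A E z x y : ℕ} (hE : 1 ≤ E) (hA : A ^ 2 ≤ E) (h : SrA A E z x y) :
    (y : ℝ) ≤ Real.exp E := by
  obtain ⟨s1, s2, s3, s4, s5, s6⟩ := h
  have hEr : (1 : ℝ) ≤ E := by exact_mod_cast hE
  have hx1 : Real.exp 1 ≤ x := by
    have h1 : Real.exp 1 ≤ z := (Real.exp_le_exp.2 (by linarith)).trans s1
    have h2 : (z : ℝ) ≤ x := by
      have h3 : z ≤ z ^ E := Nat.le_self_pow (by omega) z
      exact_mod_cast h3.trans s2
    linarith
  have hlx : 1 ≤ Real.log x := by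
    rw [Real.le_log_iff_exp_le (lt_of_lt_of_le (Real.exp_pos 1) hx1)]
    exact hx1
  set l := Real.log (Real.log x) with hl
  have hl0 : 0 ≤ l := Real.log_nonneg hlx
  have hAr : (A : ℝ) ^ 2 ≤ E := by exact_mod_cast hA
  have hAl : (A : ℝ) * l ≤ E := by
    by_contra h1
    push Not at h1
    have h2 : (E : ℝ) ^ 3 < ((A : ℝ) * l) ^ 3 := pow_lt_pow_left₀ h1 (by positivity) (by norm_num)
    have h3 : (A : ℝ) ^ 3 * l ^ 3 ≤ (A : ℝ) ^ 3 * E :=
      mul_le_mul_of_nonneg_left s6 (by positivity)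
    have h4 : (A : ℝ) ^ 3 ≤ (E : ℝ) ^ 2 := by
      have h5 : (A : ℝ) ^ 3 ≤ (A : ℝ) ^ 4 := by
        have : A ^ 3 ≤ A ^ 4 := by
          rcases Nat.eq_zero_or_pos A with h6 | h6
          · rw [h6]
            norm_num
          · exact Nat.pow_le_pow_right h6 (by norm_num)
        exact_mod_cast this
      have h6 : (A : ℝ) ^ 4 = ((A : ℝ) ^ 2) ^ 2 := by ring
      rw [h6] at h5
      exact h5.trans (pow_le_pow_left₀ (by positivity) hAr 2)
    have h7 : (A : ℝ) ^ 3 * E ≤ (E : ℝ) ^ 2 * E :=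
      mul_le_mul_of_nonneg_right h4 (by positivity)
    rw [mul_pow] at h2
    nlinarith only [h2, h3, h7]
  calc (y : ℝ) ≤ Real.log x ^ A := s5
    _ = Real.exp (A * l) := by
        rw [Real.exp_nat_mul, hl, Real.exp_log (by linarith only [hlx])]
    _ ≤ Real.exp E := Real.exp_le_exp.2 hAl

theorem suv (hGV : StmtGV) : Pool.Agent.Helper23.MC.StmtSUV := by
  intro A K0 C hC1
  obtain ⟨c, hc, E1, hGV⟩ := hGV K0
  obtain ⟨C1, hC11, hCB⟩ := Pool.Agent.Helper31.RR.cb
  obtain ⟨c2, C2, hc2, hC21, hMA⟩ := Pool.Agent.Helper24.PP.ma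
  refine ⟨1000 + A ^ 2 + E1 + ⌈Real.log C⌉₊ + ⌈Real.log (C1 * C2)⌉₊ + ⌈Real.log C1⌉₊ +
    8 * (K0 + 1), fun E z x y hE hSr P H hP hH hHc T κ hAd n hn => ?_⟩
  obtain ⟨⟨g1, g2, g3, g4, g5, g6, g7⟩, -⟩ := hGV E (by omega)
  have hE1 : 1000 ≤ E := by omega
  have hEr : (1000 : ℝ) ≤ E := by exact_mod_cast hE1
  have hyE := y_le (by omega) (by omega) hSr
  obtain ⟨s1, s2, s3, s4, s5, s6⟩ := hSr
  have hyz : y ≤ z := by exact_mod_cast hyE.trans s1
  have hlogC : Real.log C ≤ E := by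
    refine (Nat.le_ceil _).trans ?_
    exact_mod_cast (by omega : ⌈Real.log C⌉₊ ≤ E)
  have hlogC1 : Real.log C1 ≤ E := by
    refine (Nat.le_ceil _).trans ?_
    exact_mod_cast (by omega : ⌈Real.log C1⌉₊ ≤ E)
  have hlogC12 : Real.log (C1 * C2) ≤ E := by
    refine (Nat.le_ceil _).trans ?_
    exact_mod_cast (by omega : ⌈Real.log (C1 * C2)⌉₊ ≤ E)
  have hK0 : 8 * (K0 + 1) ≤ E := by omega
  have hEz : E ≤ z := by
    have h1 : (E : ℝ) ≤ z := by
      have := Real.add_one_le_exp (E : ℝ)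
      linarith only [s1, this]
    exact_mod_cast h1
  have hz2 : 2 ≤ z := by omega
  obtain ⟨hVV, -⟩ := g7 z hz2
  have hlarge : ∀ i : ℕ, i ∈ Icc 1 y →
      ((n + i).primeFactors.filter (fun p => z < p)).card ≤ E := by
    intro i hi
    have hi := Finset.mem_Icc.1 hi
    refine card_large (by omega) ?_
    have h1 : n + (i : ℕ) < (z + 1) ^ E + z := by omega
    have h2 : (z + 1) ^ E + z ≤ (z + 1) ^ (E + 1) := by
      rw [pow_succ]
      have h3 : 1 ≤ (z + 1) ^ E := Nat.one_le_pow _ _ (by omega)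
      nlinarith only [s3]
    omega
  -- one point of `P`
  have hS : ∀ i : P, ∑ s ∈ LA z (mE E) (qE E * mE E),
      ab (mE E) (qE E) z s * |vv y z s (n + (i : ℕ))| ≤ C1 * 2 ^ E := by
    intro i
    have hi := Finset.mem_Icc.1 (hP i.2)
    refine sum_label (fun d hd => ?_) (by linarith only [hC11]) (by omega) (hlarge _ (hP i.2))
    exact (hCB (mE E) (qE E) (qE E * mE E) z g1 hz2 (by omega) hVV d hd).1
  -- the sum over the label functions on `P`
  set K := E / 32 / mE E with hKdef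
  have hW : |W1 E z y P n| ≤ (1 + P.card * (C1 * 2 ^ E)) ^ K := by
    unfold W1 WB
    refine (Finset.abs_sum_le_sum_abs _ _).trans ?_
    have h1 : ∀ r ∈ TB (mE E) (qE E) (E / 32) z P,
        |∏ i : P, ((if r i = 0 then 1 else - ab (mE E) (qE E) z (r i)) *
          vv y z (r i) (n + (i : ℕ)))| =
        ∏ i : P, (fun (i : P) (s : ℕ) => if s = 0 then (1 : ℝ) else
          ab (mE E) (qE E) z s * |vv y z s (n + (i : ℕ))|) i (r i) := by
      intro r _
      rw [Finset.abs_prod]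
      refine Finset.prod_congr rfl fun i _ => ?_
      simp only
      split_ifs with h0
      · rw [h0, one_mul]
        unfold vv
        rw [if_pos rfl, abs_one]
      · rw [abs_mul, abs_neg, abs_of_nonneg (ab_nonneg _ _ _ _)]
    rw [Finset.sum_congr rfl h1]
    refine sum_labels (L := LA z (mE E) (qE E * mE E)) (TB (mE E) (qE E) (E / 32) z P) K
      (C1 * 2 ^ E)
      (fun (i : P) (s : ℕ) => if s = 0 then (1 : ℝ) else
        ab (mE E) (qE E) z s * |vv y z s (n + (i : ℕ))|)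
      (by positivity) (fun r hr => (mem_TB hr).1) (fun r hr => card_TB g1 hz2 hr)
      (fun i => if_pos rfl) (fun i s => ?_) (fun i => ?_)
    · split_ifs
      · exact zero_le_one
      · exact mul_nonneg (ab_nonneg _ _ _ _) (abs_nonneg _)
    · refine le_trans (le_of_eq ?_) (hS i)
      refine Finset.sum_congr rfl fun s hs => ?_
      have h0 : s ≠ 0 := by
        have := (mem_SS.1 (mem_LA.1 hs).1).1.1
        omega
      rw [if_neg h0]
  -- one point of `H`
  have hSH : ∀ i : H, ∑ s ∈ SS z (z ^ (E / 32)),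
      1 / ((E : ℝ) * (Nat.totient s : ℝ)) * |vv y z s (n + (i : ℕ))| ≤ C1 * C2 * 2 ^ E := by
    intro i
    have hi := Finset.mem_Icc.1 (hH i.2)
    have h1 : ∑ s ∈ SS z (z ^ (E / 32)),
        1 / (Nat.totient s : ℝ) * |vv y z s (n + (i : ℕ))| ≤ (C1 * (C2 * E)) * 2 ^ E := by
      refine sum_labelS (fun d hd => ?_) (by positivity) (by omega) (hlarge _ (hH i.2))
      refine ((hCB (mE E) (qE E) (E / 32) z g1 hz2 (by omega) hVV d hd).2).trans ?_
      refine mul_le_mul_of_nonneg_left ?_ (by linarith only [hC11])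
      refine ((hMA z (E / 32) hz2 (by omega)).2.1).trans ?_
      refine mul_le_mul_of_nonneg_left ?_ (by linarith only [hC21])
      exact_mod_cast Nat.div_le_self E 32
    have h2 : ∑ s ∈ SS z (z ^ (E / 32)),
        1 / ((E : ℝ) * (Nat.totient s : ℝ)) * |vv y z s (n + (i : ℕ))| =
        1 / (E : ℝ) * ∑ s ∈ SS z (z ^ (E / 32)),
          1 / (Nat.totient s : ℝ) * |vv y z s (n + (i : ℕ))| := by
      rw [Finset.mul_sum]
      refine Finset.sum_congr rfl fun s _ => ?_
      rw [← mul_assoc, one_div_mul_one_div]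
    rw [h2]
    calc 1 / (E : ℝ) * ∑ s ∈ SS z (z ^ (E / 32)),
          1 / (Nat.totient s : ℝ) * |vv y z s (n + (i : ℕ))|
        ≤ 1 / (E : ℝ) * ((C1 * (C2 * E)) * 2 ^ E) :=
          mul_le_mul_of_nonneg_left h1 (by positivity)
      _ = C1 * C2 * 2 ^ E := by
          have : (E : ℝ) ≠ 0 := by linarith only [hEr]
          field_simp
  have hD1 : (1 : ℝ) ≤ C1 * C2 * 2 ^ E := by
    have h1 : (1 : ℝ) ≤ 2 ^ E := one_le_pow₀ (by norm_num)
    have h2 : (1 : ℝ) ≤ C1 * C2 := by nlinarith only [hC11, hC21]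
    nlinarith only [h1, h2]
  have hV : |VH y z H T κ n| ≤ C * (C1 * C2 * 2 ^ E) ^ K0 :=
    abs_VH_le (by linarith only [hC1]) hD1 hHc hAd hSH
  -- numerics
  have hexpC : C ≤ Real.exp E := by
    rw [← Real.log_le_iff_le_exp (by linarith only [hC1])]
    exact hlogC
  have hexpC1 : C1 ≤ Real.exp E := by
    rw [← Real.log_le_iff_le_exp (by linarith only [hC11])]
    exact hlogC1
  have hexpC12 : C1 * C2 ≤ Real.exp E := by
    rw [← Real.log_le_iff_le_exp (by positivity)]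
    exact hlogC12
  have h2E := two_pow_le E
  have hPE : (P.card : ℝ) ≤ Real.exp E := by
    have h1 : P.card ≤ y := by
      have := Finset.card_le_card hP
      rw [Nat.card_Icc] at this
      omega
    exact (by exact_mod_cast h1 : (P.card : ℝ) ≤ y).trans hyE
  have hbase : 1 + (P.card : ℝ) * (C1 * 2 ^ E) ≤ Real.exp (3 * E + 1) := by
    have h4 : (P.card : ℝ) * (C1 * 2 ^ E) ≤ Real.exp (3 * E) := by
      calc (P.card : ℝ) * (C1 * 2 ^ E) ≤ Real.exp E * (Real.exp E * Real.exp E) := by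
            refine mul_le_mul hPE ?_ (by positivity) (Real.exp_pos _).le
            exact mul_le_mul hexpC1 h2E (by positivity) (Real.exp_pos _).le
        _ = Real.exp (3 * E) := by
            rw [← Real.exp_add, ← Real.exp_add]
            congr 1
            ring
    have h5 : 1 ≤ Real.exp (3 * E) := Real.one_le_exp (by positivity)
    have h6 : (2 : ℝ) ≤ Real.exp 1 := by
      have := Real.add_one_le_exp (1 : ℝ)
      linarith only [this]
    rw [Real.exp_add]
    nlinarith only [h4, h5, h6]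
  have hKE : K * 16 ≤ E := by
    by_cases h1 : K ≤ 16
    · omega
    · have h2 : K ^ 2 ≤ (2 * (K + K0 + 2)) ^ 6 := by
        calc K ^ 2 ≤ K ^ 6 := Nat.pow_le_pow_right (by omega) (by norm_num)
          _ ≤ (2 * (K + K0 + 2)) ^ 6 := Nat.pow_le_pow_left (by omega) 6
      have h3 : K * 16 ≤ K ^ 2 := by
        rw [sq]
        exact Nat.mul_le_mul_left K (by omega)
      omega
  have hpos : 0 ≤ 1 + (P.card : ℝ) * (C1 * 2 ^ E) := by positivity
  have hW2 : W1 E z y P n ^ 2 ≤ Real.exp ((E : ℝ) ^ 2 / 2) := by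
    calc W1 E z y P n ^ 2 = |W1 E z y P n| ^ 2 := (sq_abs _).symm
      _ ≤ ((1 + (P.card : ℝ) * (C1 * 2 ^ E)) ^ K) ^ 2 := pow_le_pow_left₀ (abs_nonneg _) hW 2
      _ ≤ (Real.exp (3 * E + 1) ^ K) ^ 2 :=
          pow_le_pow_left₀ (by positivity) (pow_le_pow_left₀ hpos hbase K) 2
      _ = Real.exp (2 * (K * (3 * E + 1))) := by
          rw [← Real.exp_nat_mul, ← Real.exp_nat_mul]
          norm_num
      _ ≤ Real.exp ((E : ℝ) ^ 2 / 2) := by
          refine Real.exp_le_exp.2 ?_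
          have h0 : (K : ℝ) * 16 ≤ E := by exact_mod_cast hKE
          have h1 : (K : ℝ) * 16 * (3 * E + 1) ≤ E * (3 * E + 1) :=
            mul_le_mul_of_nonneg_right h0 (by positivity)
          nlinarith only [hEr, h1]
  have hV2 : VH y z H T κ n ^ 2 ≤ Real.exp ((E : ℝ) ^ 2 / 2) := by
    have h0 : (0 : ℝ) ≤ C1 * C2 * 2 ^ E := by linarith only [hD1]
    have h1 : C1 * C2 * 2 ^ E ≤ Real.exp (2 * E) := by
      calc C1 * C2 * 2 ^ E ≤ Real.exp E * Real.exp E :=
            mul_le_mul hexpC12 h2E (by positivity) (Real.exp_pos _).le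
        _ = Real.exp (2 * E) := by
            rw [← Real.exp_add]
            congr 1
            ring
    have h2 : |VH y z H T κ n| ≤ Real.exp (E + K0 * (2 * E)) := by
      refine hV.trans ?_
      rw [Real.exp_add, Real.exp_nat_mul]
      exact mul_le_mul hexpC (pow_le_pow_left₀ h0 h1 K0) (pow_nonneg h0 K0)
        (Real.exp_pos _).le
    calc VH y z H T κ n ^ 2 = |VH y z H T κ n| ^ 2 := (sq_abs _).symm
      _ ≤ Real.exp (E + K0 * (2 * E)) ^ 2 := pow_le_pow_left₀ (abs_nonneg _) h2 2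
      _ = Real.exp (2 * (E + K0 * (2 * E))) := by
          rw [← Real.exp_nat_mul]
          norm_num
      _ ≤ Real.exp ((E : ℝ) ^ 2 / 2) := by
          refine Real.exp_le_exp.2 ?_
          have h3 : (8 : ℝ) * (K0 + 1) ≤ E := by exact_mod_cast hK0
          have h4 : (8 : ℝ) * (K0 + 1) * E ≤ E * E :=
            mul_le_mul_of_nonneg_right h3 (by positivity)
          nlinarith only [hEr, h4]
  calc W1 E z y P n ^ 2 * VH y z H T κ n ^ 2
      ≤ Real.exp ((E : ℝ) ^ 2 / 2) * Real.exp ((E : ℝ) ^ 2 / 2) :=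
        mul_le_mul hW2 hV2 (by positivity) (Real.exp_pos _).le
    _ = Real.exp ((E : ℝ) ^ 2) := by
        rw [← Real.exp_add]
        congr 1
        ring

end Pool.Agent.Helper56.MC
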